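import Pool.Agent.Helper91.MC9.Spec

set_option autoImplicit false

namespace Pool.Agent.Helper91.MC9P.CLQ

open SimpleGraph Pool.Agent.Helper91.MC9

theorem main : S_CLQ := by
  rintro ℋ ⟨⟨t, H⟩, hH⟩
  refine ⟨t, fun V _ G hG S hS => ?_⟩
  by_contra hcon
  push Not at hcon
  have hfin : S.Finite := Set.toFinite S
  have h1 : Nat.card (Fin t) ≤ Nat.card S := by
    rw [Nat.card_eq_fintype_card, Fintype.card_fin, Nat.card_coe_set_eq]
    exact hcon.le
  obtain ⟨φ⟩ : Nonempty (Fin t ↪ S) := by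
    have : Fintype S := hfin.fintype
    rw [Function.Embedding.nonempty_iff_card_le]
    simpa [Nat.card_eq_fintype_card] using h1
  refine hG ⟨t, H⟩ hH ⟨fun i => {(φ i : V)}, fun i => ?_, fun a b hab => ?_, fun a b hab => ?_⟩
  · exact induce_singleton_eq_top G _ ▸ connected_top
  · refine Set.disjoint_left.2 ?_
    intro x hx hx'
    rw [Set.mem_singleton_iff] at hx hx'
    exact hab (φ.injective (Subtype.ext (hx.symm.trans hx')))
  · refine ⟨_, rfl, _, rfl, hS (φ a).2 (φ b).2 ?_⟩
    intro h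
    exact hab.ne (φ.injective (Subtype.ext h))

end Pool.Agent.Helper91.MC9P.CLQ
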