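import Pool.Agent.Helper91.MC9.Spec

set_option autoImplicit false

namespace Pool.Agent.Helper91.MC9P.LIN

open SimpleGraph Pool.Agent.Helper91.MC9

theorem main (hKT : S_KT) : S_LIN := by
  rintro ℋ ⟨⟨t, H⟩, hH⟩
  refine ⟨2 ^ t, fun V _ G hG => ?_⟩
  rcases isEmpty_or_nonempty V with hV | hV
  · have : G.edgeSet = ∅ := by
      ext e
      constructor
      · intro h
        induction e using Sym2.ind with
        | _ x y => exact (hV.false x).elim
      · exact fun h => h.elim
    rw [this, Set.ncard_empty]
    exact Nat.zero_le _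
  · by_contra hcon
    push Not at hcon
    obtain ⟨B, hB, hd, ha⟩ := hKT t V G hcon.le
    exact hG ⟨t, H⟩ hH ⟨B, hB, hd, fun a b hab => ha a b (by simpa using hab.ne)⟩

end Pool.Agent.Helper91.MC9P.LIN
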