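import Pool.Agent.Helper91.MC9.Spec

set_option autoImplicit false

namespace Pool.Agent.Helper91.MC9P.SAT

open SimpleGraph Pool.Agent.Helper91.MC9

theorem main : S_SAT := by
  intro ℋ V _ G hG
  have hfin : ({G' : SimpleGraph V | G ≤ G' ∧ Free ℋ G'} : Set (SimpleGraph V)).Finite :=
    Set.toFinite _
  obtain ⟨G', hG', hmax⟩ := hfin.exists_maximal ⟨G, le_rfl, hG⟩
  refine ⟨G', hG'.1, hG'.2, fun u v huv hn hfree => hn ?_⟩
  have h1 : G' ≤ G' ⊔ edge u v := le_sup_left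
  have h2 := hmax ⟨hG'.1.trans h1, hfree⟩ h1
  apply h2
  rw [sup_adj, edge_adj]
  exact Or.inr ⟨Or.inl ⟨rfl, rfl⟩, huv⟩

end Pool.Agent.Helper91.MC9P.SAT
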