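import Pool.Agent.Helper91.MC9.Spec

set_option autoImplicit false

namespace Pool.Agent.Helper91.MC9P.SPLIT

open SimpleGraph Pool.Agent.Helper91.MC9

theorem main : S_SPLIT := by
  intro W V ι H G p hH hp hm
  obtain ⟨B, hB, hd, ha⟩ := hm
  -- `p` is constant on reachable vertices of induced subgraphs
  have key : ∀ (S : Set V), (G.induce S).Connected → ∀ x y : S, p x = p y := by
    intro S hS x y
    obtain ⟨w⟩ := hS.preconnected x y
    induction w with
    | nil => rfl
    | cons h w ih => exact (hp _ _ h).trans ih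
  obtain ⟨w0⟩ := hH.nonempty
  obtain ⟨x0⟩ := (hB w0).nonempty
  have hall : ∀ w : W, ∀ x ∈ B w, p x = p x0 := by
    intro w
    obtain ⟨q⟩ := hH.preconnected w w0
    induction q with
    | nil => intro x hx; exact key _ (hB _) ⟨x, hx⟩ x0
    | cons h q ih =>
      intro x hx
      obtain ⟨a, ha1, b, hb1, hab⟩ := ha _ _ h
      have h1 := key _ (hB _) ⟨x, hx⟩ ⟨a, ha1⟩
      exact h1.trans ((hp _ _ hab).trans (ih x0 b hb1))
  refine ⟨p x0, fun w => {x | x.1 ∈ B w}, fun w => ?_, fun a b hab => ?_, fun a b hab => ?_⟩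
  · let e : G.induce (B w) ≃g (G.induce {x | p x = p x0}).induce {x | x.1 ∈ B w} :=
      { toFun := fun x => ⟨⟨x.1, hall w x.1 x.2⟩, x.2⟩
        invFun := fun x => ⟨x.1.1, x.2⟩
        left_inv := fun x => rfl
        right_inv := fun x => rfl
        map_rel_iff' := Iff.rfl }
    exact e.connected_iff.1 (hB w)
  · refine Set.disjoint_left.2 ?_
    intro x hx hx'
    exact Set.disjoint_left.1 (hd hab) hx hx'
  · obtain ⟨x, hx, y, hy, hxy⟩ := ha a b hab
    exact ⟨⟨x, hall a x hx⟩, hx, ⟨y, hall b y hy⟩, hy, hxy⟩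

end Pool.Agent.Helper91.MC9P.SPLIT
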